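import Pool.Agent.Helper96.AW.GoalsA
import Pool.Agent.Helper93.AF.COR2
import Pool.Agent.Helper77.AF.FOR

/-!
# Project AW (MP_af6c86_pr), packet TB1 (2-core of unicyclic graphs)

The peeling of `Pool/Agent/Helper93/AF/COR2.lean`, also for `r = 0`.
-/

set_option autoImplicit false

open Finset

namespace Pool.Agent.Helper90.AW.TB1

open Pool.Agent.Helper26.AF Pool.Agent.Helper93.AF

variable {k : ℕ}

theorem peel0 (G : SimpleGraph (Fin k)) (S : Finset (Fin k)) (f : Fin k → Fin k) (r : ℕ)
    (h : Core G S f r) (x : Fin k) (hx : x ∈ S)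
    (hd : ∀ y ∈ S, ∀ z ∈ S, G.Adj x y → G.Adj x z → y = z) :
    ∃ (S' : Finset (Fin k)) (f' : Fin k → Fin k), #S' < #S ∧ Core G S' f' r := by
  by_cases hy : ∃ y ∈ S, G.Adj x y
  · obtain ⟨y, hyS, hxy⟩ := hy
    have hyx : y ≠ x := fun e => G.loopless.irrefl x (by rw [e] at hxy; exact hxy)
    have uniq : ∀ z ∈ S, G.Adj x z → z = y := fun z hz hxz => hd z hz y hyS hxz hxy
    refine ⟨S.erase x, Function.update f x y, Finset.card_erase_lt_of_mem hx, ?_⟩
    have hfx : Function.update f x y x = y := Function.update_self x y f
    have hfo : ∀ z, z ≠ x → Function.update f x y z = f z := fun z hz =>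
      Function.update_of_ne hz y f
    have hy' : y ∈ S.erase x := Finset.mem_erase.2 ⟨hyx, hyS⟩
    have hxS' : x ∉ S.erase x := Finset.notMem_erase x S
    refine ⟨⟨y, hy'⟩, ?_, ?_, ⟨?_, ?_⟩, ?_, ?_⟩
    · -- connected
      intro u hu v hv
      have huS := Finset.mem_of_mem_erase hu
      have hvS := Finset.mem_of_mem_erase hv
      have hux := Finset.ne_of_mem_erase hu
      have hvx := Finset.ne_of_mem_erase hv
      have key := Relation.ReflTransGen.lift' (r := RR G S) (p := RR G (S.erase x))
        (fun w : Fin k => if w = x then y else w)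
        (fun a b (hab : RR G S a b) => by
          obtain ⟨h1, h2, h3⟩ := hab
          by_cases hax : a = x
          · have hb : b = y := uniq b h3 (by rw [← hax]; exact h1)
            have : (if a = x then y else a) = (if b = x then y else b) := by
              rw [if_pos hax, hb, if_neg hyx]
            change Relation.ReflTransGen _ (if a = x then y else a) (if b = x then y else b)
            rw [this]
          · by_cases hbx : b = x
            · have ha : a = y := uniq a h2 (by rw [← hbx]; exact h1.symm)
              have : (if a = x then y else a) = (if b = x then y else b) := by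
                rw [if_pos hbx, ha, if_neg hyx]
              change Relation.ReflTransGen _ (if a = x then y else a) (if b = x then y else b)
              rw [this]
            · change Relation.ReflTransGen _ (if a = x then y else a) (if b = x then y else b)
              rw [if_neg hax, if_neg hbx]
              exact Relation.ReflTransGen.single
                ⟨h1, Finset.mem_erase.2 ⟨hax, h2⟩, Finset.mem_erase.2 ⟨hbx, h3⟩⟩)
        u v (h.conn u huS v hvS)
      change Relation.ReflTransGen _ (if u = x then y else u) (if v = x then y else v) at key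
      rw [if_neg hux, if_neg hvx] at key
      exact key
    · -- edges
      have e1 : {e : Sym2 (Fin k) | e ∈ G.edgeSet ∧ ∀ v ∈ e, v ∈ S}
          = insert s(x, y) {e : Sym2 (Fin k) | e ∈ G.edgeSet ∧ ∀ v ∈ e, v ∈ S.erase x} := by
        ext e
        rw [Set.mem_insert_iff]
        constructor
        · rintro ⟨h1, h2⟩
          by_cases hxe : x ∈ e
          · left
            obtain ⟨z, rfl⟩ := Sym2.mem_iff_exists.1 hxe
            have hz : z ∈ S := h2 z (Sym2.mem_mk_right x z)
            rw [uniq z hz (by rwa [SimpleGraph.mem_edgeSet] at h1)]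
          · right
            refine ⟨h1, fun v hv => Finset.mem_erase.2 ⟨fun e' => hxe (e' ▸ hv), h2 v hv⟩⟩
        · rintro (rfl | ⟨h1, h2⟩)
          · refine ⟨hxy, fun v hv => ?_⟩
            rcases Sym2.mem_iff.1 hv with rfl | rfl
            · exact hx
            · exact hyS
          · exact ⟨h1, fun v hv => Finset.mem_of_mem_erase (h2 v hv)⟩
      have e2 : s(x, y) ∉ {e : Sym2 (Fin k) | e ∈ G.edgeSet ∧ ∀ v ∈ e, v ∈ S.erase x} := by
        rintro ⟨-, h2⟩
        exact hxS' (h2 x (Sym2.mem_mk_left x y))
      have e3 := h.edges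
      rw [e1, Set.ncard_insert_of_notMem e2] at e3
      have e4 : #(S.erase x) + 1 = #S := Finset.card_erase_add_one hx
      omega
    · intro z hz
      rw [hfo z (Finset.ne_of_mem_erase hz)]
      exact h.isfor.1 z (Finset.mem_of_mem_erase hz)
    · have key : ∀ (i : ℕ) (z : Fin k), f^[i] z ∈ S →
          ∃ j : ℕ, (Function.update f x y)^[j] z ∈ S.erase x := by
        intro i
        induction i with
        | zero =>
          intro z hz
          by_cases hzx : z = x
          · refine ⟨1, ?_⟩
            rw [Function.iterate_one, hzx, hfx]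
            exact hy'
          · exact ⟨0, Finset.mem_erase.2 ⟨hzx, hz⟩⟩
        | succ i ih =>
          intro z hz
          by_cases hzx : z = x
          · refine ⟨1, ?_⟩
            rw [Function.iterate_one, hzx, hfx]
            exact hy'
          · rw [Function.iterate_succ_apply] at hz
            obtain ⟨j, hj⟩ := ih (f z) hz
            refine ⟨j + 1, ?_⟩
            rw [Function.iterate_succ_apply, hfo z hzx]
            exact hj
      intro z
      obtain ⟨i, hi⟩ := h.isfor.2 z
      exact key i z hi
    · intro z hz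
      by_cases hzx : z = x
      · rw [hzx, hfx]; exact hxy
      · rw [hfo z hzx]
        exact h.adj z fun hzS => hz (Finset.mem_erase.2 ⟨hzx, hzS⟩)
    · intro a b hab
      rcases h.cover a b hab with ⟨ha, hb⟩ | ⟨ha, hb⟩ | ⟨hb, ha⟩
      · by_cases hax : a = x
        · right; left
          subst hax
          refine ⟨hxS', ?_⟩
          rw [hfx]
          exact uniq b hb hab
        · by_cases hbx : b = x
          · right; right
            subst hbx
            refine ⟨hxS', ?_⟩
            rw [hfx]
            exact uniq a ha hab.symm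
          · exact Or.inl ⟨Finset.mem_erase.2 ⟨hax, ha⟩, Finset.mem_erase.2 ⟨hbx, hb⟩⟩
      · right; left
        have hax : a ≠ x := fun e => ha (e ▸ hx)
        refine ⟨fun h' => ha (Finset.mem_of_mem_erase h'), ?_⟩
        rw [hfo a hax]; exact hb
      · right; right
        have hbx : b ≠ x := fun e => hb (e ▸ hx)
        refine ⟨fun h' => hb (Finset.mem_of_mem_erase h'), ?_⟩
        rw [hfo b hbx]; exact ha
  · exfalso
    push Not at hy
    have hS : S = {x} := by
      ext v
      rw [Finset.mem_singleton]
      constructor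
      · intro hv
        rcases Relation.ReflTransGen.cases_head (h.conn x hx v hv) with h1 | ⟨b, h1, -⟩
        · exact h1.symm
        · exact absurd h1.1 (hy b h1.2.2)
      · rintro rfl; exact hx
    have he : {e : Sym2 (Fin k) | e ∈ G.edgeSet ∧ ∀ v ∈ e, v ∈ S} = ∅ := by
      rw [Set.eq_empty_iff_forall_notMem]
      rintro e ⟨h1, h2⟩
      induction e using Sym2.ind with
      | _ a b =>
        have ha := h2 a (Sym2.mem_mk_left a b)
        have hb := h2 b (Sym2.mem_mk_right a b)
        rw [hS, Finset.mem_singleton] at ha hb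
        rw [ha, hb] at h1
        exact G.loopless.irrefl x h1
    have := h.edges
    rw [he, Set.ncard_empty] at this
    have hS1 : #S = 1 := by rw [hS]; exact Finset.card_singleton x
    omega

/-- the core -/
theorem exists_core0 (G : SimpleGraph (Fin k)) (r : ℕ) : ∀ (N : ℕ)
    (S : Finset (Fin k)) (f : Fin k → Fin k), #S = N → Core G S f r →
    ∃ (S' : Finset (Fin k)) (f' : Fin k → Fin k), Core G S' f' r ∧
      ∀ x ∈ S', ∃ y ∈ S', ∃ z ∈ S', G.Adj x y ∧ G.Adj x z ∧ y ≠ z := by
  intro N
  induction N using Nat.strong_induction_on with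
  | _ N ih =>
    intro S f hN hS
    by_cases hd : ∀ x ∈ S, ∃ y ∈ S, ∃ z ∈ S, G.Adj x y ∧ G.Adj x z ∧ y ≠ z
    · exact ⟨S, f, hS, hd⟩
    · push Not at hd
      obtain ⟨x, hx, hd⟩ := hd
      obtain ⟨S', f', h1, h2⟩ := peel0 G S f r hS x hx
        (fun y hy z hz h1 h2 => hd y hy z hz h1 h2)
      exact ih #S' (by omega) S' f' rfl h2

open Classical in
theorem card_all0 (k r : ℕ) :
    Nc k r ≤ ∑ S : Finset (Fin k), Kc #S r * Nat.card {f : Fin k → Fin k // IsFor S f} := by
  have h1 : Nc k r ≤ ∑ S : Finset (Fin k), Nat.card {G : SimpleGraph (Fin k) // PP r S G} := by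
    have e1 : Nc k r = #(univ.filter fun G : SimpleGraph (Fin k) =>
        G.Connected ∧ ne G = k + r) := by
      unfold Nc
      rw [Nat.card_eq_fintype_card, Fintype.card_subtype]
    have e2 : ∀ S : Finset (Fin k), Nat.card {G : SimpleGraph (Fin k) // PP r S G}
        = #(univ.filter fun G : SimpleGraph (Fin k) => PP r S G) := fun S => by
      rw [Nat.card_eq_fintype_card, Fintype.card_subtype]
    simp only [e2]
    rw [e1]
    refine le_trans (Finset.card_le_card ?_) (Finset.card_biUnion_le (s := univ)
      (t := fun S : Finset (Fin k) => univ.filter fun G : SimpleGraph (Fin k) => PP r S G))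
    intro G hG
    rw [Finset.mem_filter] at hG
    obtain ⟨-, hc, hn⟩ := hG
    obtain ⟨S, f, h1, h2⟩ := exists_core0 G r _ univ id rfl (core_start G r hc hn)
    rw [Finset.mem_biUnion]
    exact ⟨S, mem_univ _, Finset.mem_filter.2 ⟨mem_univ _, f, h1, h2⟩⟩
  exact le_trans h1 (Finset.sum_le_sum fun S _ => card_fib r S)

/-- PACKET TB1 -/
theorem t : Pool.Agent.Helper96.AW.S_TB1 := by
  intro k
  have hFOR := Pool.Agent.Helper77.AF.goalFOR
  have h1 : Nc k 0 * k ≤ ∑ S : Finset (Fin k), Kc #S 0 * (#S * k ^ (k - #S)) := by
    calc Nc k 0 * k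
        ≤ (∑ S : Finset (Fin k), Kc #S 0 * Nat.card {f : Fin k → Fin k // IsFor S f}) * k :=
          Nat.mul_le_mul_right k (card_all0 k 0)
      _ = ∑ S : Finset (Fin k), Kc #S 0 * (Nat.card {f : Fin k → Fin k // IsFor S f} * k) := by
          rw [Finset.sum_mul]
          exact Finset.sum_congr rfl fun S _ => mul_assoc _ _ _
      _ = ∑ S : Finset (Fin k), Kc #S 0 * (#S * k ^ (k - #S)) := by
          refine Finset.sum_congr rfl fun S _ => ?_
          rcases Finset.eq_empty_or_nonempty S with rfl | hS
          · rw [Finset.card_empty, kc_zero, zero_mul, zero_mul]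
          · rw [hFOR k S hS]
  refine le_trans h1 (le_of_eq ?_)
  have h2 := Finset.sum_powerset_apply_card (fun s => Kc s 0 * (s * k ^ (k - s)))
    (x := (univ : Finset (Fin k)))
  rw [Finset.powerset_univ, Finset.card_univ, Fintype.card_fin] at h2
  rw [h2, Finset.sum_range_succ']
  rw [kc_zero, zero_mul, smul_zero, add_zero]
  have h3 : Icc 1 k = (range k).image (fun i => i + 1) := by
    ext i
    rw [Finset.mem_Icc, Finset.mem_image]
    constructor
    · rintro ⟨ha, hb⟩
      exact ⟨i - 1, Finset.mem_range.2 (by omega), by omega⟩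
    · rintro ⟨j, hj, rfl⟩
      have := Finset.mem_range.1 hj
      omega
  rw [h3, Finset.sum_image (fun a _ b _ h => by simpa using h)]
  refine Finset.sum_congr rfl fun i _ => ?_
  rw [smul_eq_mul, mul_assoc]

end Pool.Agent.Helper90.AW.TB1
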